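import Mathlib

/-! Clusters of a finite set of positions, and the window relation. -/

set_option autoImplicit false

namespace H393R2.DE

open Finset

variable {F : Type*} [CommRing F]

/-- integers at distance `> H` from all positions -/
def Far (D : Finset ℕ) (H : ℕ) (g : ℤ) : Prop := ∀ d ∈ D, (H : ℤ) < |g - d|

instance (D : Finset ℕ) (H : ℕ) (g : ℤ) : Decidable (Far D H g) := by
  unfold Far; infer_instance

/-- the label of the cluster: the largest far point below -/
def cl (D : Finset ℕ) (H : ℕ) (d : ℕ) : ℕ := Nat.findGreatest (fun g => Far D H (g : ℤ)) d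

/-- cumulative sum -/
def cum (D : Finset ℕ) (c : ℕ → F) (z : ℤ) : F := ∑ i ∈ D.filter (fun i : ℕ => (i : ℤ) ≤ z), c i

/-- weight of a cluster -/
def wt (D : Finset ℕ) (H : ℕ) (c : ℕ → F) (p : ℕ) : F :=
  ∑ i ∈ D.filter (fun i : ℕ => cl D H i = p), c i

/-- bound for the diameter of clusters -/
def dia (D : Finset ℕ) (H : ℕ) : ℕ := D.card * (2 * H + 1)

variable {D : Finset ℕ} {H : ℕ} {c : ℕ → F}

theorem far_exists (a : ℕ) : ∃ g : ℕ, a ≤ g ∧ g ≤ a + dia D H ∧ Far D H (g : ℤ) := by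
  classical
  by_contra hcon
  push Not at hcon
  have hsub : Finset.Icc a (a + dia D H) ⊆ D.biUnion (fun d => Finset.Icc (d - H) (d + H)) := by
    intro g hg
    rw [Finset.mem_Icc] at hg
    have h1 := hcon g hg.1 hg.2
    unfold Far at h1
    push Not at h1
    obtain ⟨d, hd, h2⟩ := h1
    rw [Finset.mem_biUnion]
    refine ⟨d, hd, ?_⟩
    rw [Finset.mem_Icc]
    rw [abs_le] at h2
    omega
  have h1 := (Finset.card_le_card hsub).trans Finset.card_biUnion_le
  have h2 : ∑ d ∈ D, (Finset.Icc (d - H) (d + H)).card ≤ D.card * (2 * H + 1) := by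
    rw [← smul_eq_mul, ← Finset.sum_const]
    apply Finset.sum_le_sum
    intro d _
    rw [Nat.card_Icc]
    omega
  rw [Nat.card_Icc] at h1
  unfold dia at h1
  omega

theorem cl_le (d : ℕ) : cl D H d ≤ d := Nat.findGreatest_le d

theorem not_far_between {d g : ℕ} (h1 : cl D H d < g) (h2 : g ≤ d) : ¬ Far D H (g : ℤ) := by
  intro h
  have := Nat.le_findGreatest (P := fun g => Far D H ((g : ℕ) : ℤ)) h2 h
  unfold cl at h1
  omega

theorem le_cl {d g : ℕ} (h2 : g ≤ d) (h : Far D H (g : ℤ)) : g ≤ cl D H d :=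
  Nat.le_findGreatest (P := fun g => Far D H ((g : ℕ) : ℤ)) h2 h

theorem sub_cl_le (d : ℕ) : d ≤ cl D H d + dia D H := by
  by_contra hcon
  push Not at hcon
  obtain ⟨g, h1, h2, h3⟩ := far_exists (D := D) (H := H) (cl D H d + 1)
  exact not_far_between (d := d) (by omega) (by omega) h3

theorem cl_far {d : ℕ} (h : dia D H ≤ d) : Far D H (cl D H d : ℤ) := by
  obtain ⟨g, h1, h2, h3⟩ := far_exists (D := D) (H := H) 0
  have := Nat.findGreatest_spec (P := fun g => Far D H ((g : ℕ) : ℤ)) (show g ≤ d by omega) h3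
  exact this

theorem cl_mono {d d' : ℕ} (h : d ≤ d') : cl D H d ≤ cl D H d' :=
  Nat.findGreatest_mono_right _ h

/-- elements of a far interval -/
theorem far_lt_iff {g : ℤ} (hg : Far D H g) {i i' : ℕ} (hi : i ∈ D) (hi' : i' ∈ D)
    (h : cl D H i = cl D H i') : g < i ↔ g < i' := by
  have key : ∀ i ∈ D, ∀ i' ∈ D, cl D H i = cl D H i' → ¬ ((i : ℤ) < g ∧ g < i') := by
    intro i hi i' hi' h hg2
    obtain ⟨n, rfl⟩ : ∃ n : ℕ, g = n := ⟨g.toNat, (Int.toNat_of_nonneg (by omega)).symm⟩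
    have h1 : n ≤ cl D H i' := le_cl (by omega) hg
    have h2 : cl D H i ≤ i := cl_le i
    omega
  have ne : ∀ i ∈ D, (i : ℤ) ≠ g := by
    intro i hi he
    have := hg i hi
    rw [he, sub_self, abs_zero] at this
    omega
  constructor
  · intro h1
    by_contra h2
    push Not at h2
    exact key i' hi' i hi h.symm ⟨lt_of_le_of_ne h2 (ne i' hi'), h1⟩
  · intro h1
    by_contra h2
    push Not at h2
    exact key i hi i' hi' h ⟨lt_of_le_of_ne h2 (ne i hi), h1⟩

theorem far_le_iff {g : ℤ} (hg : Far D H g) {i i' : ℕ} (hi : i ∈ D) (hi' : i' ∈ D)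
    (h : cl D H i = cl D H i') : (i : ℤ) ≤ g ↔ (i' : ℤ) ≤ g := by
  have := far_lt_iff hg hi hi' h
  constructor
  · intro h1; by_contra h2; push Not at h2; exact absurd (this.2 h2) (not_lt.2 h1)
  · intro h1; by_contra h2; push Not at h2; exact absurd (this.1 h2) (not_lt.2 h1)

theorem cum_sub {g1 g2 : ℤ} (h : g1 ≤ g2) :
    cum D c g2 - cum D c g1 = ∑ i ∈ D.filter (fun i : ℕ => g1 < i ∧ (i : ℤ) ≤ g2), c i := by
  classical
  unfold cum
  rw [sub_eq_iff_eq_add, add_comm, ← Finset.sum_union]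
  · apply Finset.sum_congr _ (fun _ _ => rfl)
    ext i
    simp only [Finset.mem_union, Finset.mem_filter]
    constructor
    · rintro ⟨h1, h2⟩
      by_cases h3 : (i : ℤ) ≤ g1
      · exact Or.inl ⟨h1, h3⟩
      · exact Or.inr ⟨h1, not_le.1 h3, h2⟩
    · rintro (⟨h1, h2⟩ | ⟨h1, h2, h3⟩)
      · exact ⟨h1, h2.trans h⟩
      · exact ⟨h1, h3⟩
  · rw [Finset.disjoint_left]
    intro i h1 h2
    rw [Finset.mem_filter] at h1 h2
    omega

/-- `cum` is constant near far points -/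
theorem cum_far {g x : ℤ} (hg : Far D H g) (h : |x - g| ≤ H) : cum D c x = cum D c g := by
  unfold cum
  apply Finset.sum_congr _ (fun _ _ => rfl)
  ext i
  rw [Finset.mem_filter, Finset.mem_filter]
  constructor
  · rintro ⟨h1, h2⟩
    refine ⟨h1, ?_⟩
    have h3 := hg i h1
    rw [abs_le] at h
    rcases lt_abs.1 h3 with h4 | h4 <;> omega
  · rintro ⟨h1, h2⟩
    refine ⟨h1, ?_⟩
    have h3 := hg i h1
    rw [abs_le] at h
    rcases lt_abs.1 h3 with h4 | h4 <;> omega

/-- a change between far points gives a live position -/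
theorem change_live {g1 g2 : ℤ} (h1 : Far D H g1) (h2 : Far D H g2) (h : g1 ≤ g2)
    (hne : cum D c g1 ≠ cum D c g2) :
    ∃ d ∈ D, g1 < d ∧ (d : ℤ) < g2 ∧ wt D H c (cl D H d) ≠ 0 := by
  classical
  have hs := cum_sub (D := D) (c := c) h
  have hne2 : ∑ i ∈ D.filter (fun i : ℕ => g1 < i ∧ (i : ℤ) ≤ g2), c i ≠ 0 := by
    rw [← hs]; intro h0; exact hne (sub_eq_zero.1 h0).symm
  rw [← Finset.sum_fiberwise_of_maps_to (s := D.filter (fun i : ℕ => g1 < i ∧ (i : ℤ) ≤ g2))
    (t := (D.filter (fun i : ℕ => g1 < i ∧ (i : ℤ) ≤ g2)).image (cl D H)) (g := cl D H)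
    (fun i hi => Finset.mem_image_of_mem _ hi)] at hne2
  obtain ⟨p, hp, hp2⟩ := Finset.exists_ne_zero_of_sum_ne_zero hne2
  rw [Finset.mem_image] at hp
  obtain ⟨d, hd, rfl⟩ := hp
  rw [Finset.mem_filter] at hd
  obtain ⟨hdD, hd1, hd2⟩ := hd
  refine ⟨d, hdD, hd1, ?_, ?_⟩
  · refine lt_of_le_of_ne hd2 (fun he => ?_)
    have := h2 d hdD
    rw [he, sub_self, abs_zero] at this
    omega
  · have : wt D H c (cl D H d) = ∑ i ∈ D.filter (fun i : ℕ => g1 < i ∧ (i : ℤ) ≤ g2) with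
        cl D H i = cl D H d, c i := by
      unfold wt
      apply Finset.sum_congr _ (fun _ _ => rfl)
      ext i
      simp only [Finset.mem_filter]
      constructor
      · rintro ⟨a1, a2⟩
        exact ⟨⟨a1, (far_lt_iff h1 hdD a1 a2.symm).1 hd1, (far_le_iff h2 hdD a1 a2.symm).1 hd2⟩, a2⟩
      · rintro ⟨⟨a1, _⟩, a2⟩
        exact ⟨a1, a2⟩
    rw [this]
    exact hp2

/-- a live position gives a change between the neighbouring far points -/
theorem live_change {d : ℕ} (hd : d ∈ D) (hdia : dia D H ≤ d) (hw : wt D H c (cl D H d) ≠ 0) :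
    ∃ g : ℕ, Far D H (g : ℤ) ∧ d < g ∧ g ≤ cl D H d + dia D H + 1 ∧
      (∀ x : ℕ, cl D H d < x → x < g → ¬ Far D H (x : ℤ)) ∧
      cum D c (cl D H d : ℤ) ≠ cum D c (g : ℤ) := by
  classical
  have hex : ∃ g : ℕ, cl D H d < g ∧ Far D H (g : ℤ) := by
    obtain ⟨g, h1, h2, h3⟩ := far_exists (D := D) (H := H) (cl D H d + 1)
    exact ⟨g, by omega, h3⟩
  set g := Nat.find hex with hg
  obtain ⟨hg1, hg2⟩ := Nat.find_spec hex
  have hmin : ∀ x : ℕ, cl D H d < x → x < g → ¬ Far D H (x : ℤ) := by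
    intro x h1 h2 h3
    exact Nat.find_min hex h2 ⟨h1, h3⟩
  have hp : Far D H (cl D H d : ℤ) := cl_far hdia
  have hgle : g ≤ cl D H d + dia D H + 1 := by
    obtain ⟨g', h1, h2, h3⟩ := far_exists (D := D) (H := H) (cl D H d + 1)
    have : g ≤ g' := Nat.find_min' hex ⟨by omega, h3⟩
    omega
  have hdg : d < g := by
    by_contra hcon
    push Not at hcon
    exact not_far_between hg1 hcon hg2
  refine ⟨g, hg2, hdg, hgle, hmin, ?_⟩
  have hs := cum_sub (D := D) (c := c) (show ((cl D H d : ℕ) : ℤ) ≤ (g : ℤ) by omega)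
  intro he
  rw [he, sub_self] at hs
  apply hw
  rw [hs]
  unfold wt
  apply Finset.sum_congr _ (fun _ _ => rfl)
  ext i
  simp only [Finset.mem_filter]
  constructor
  · rintro ⟨a1, a2⟩
    refine ⟨a1, ?_, ?_⟩
    · have h1 : cl D H i ≤ i := cl_le i
      have h2 := hp i a1
      rcases lt_abs.1 h2 with h4 | h4 <;> omega
    · exact (far_le_iff hg2 hd a1 a2.symm).1 (by exact_mod_cast hdg.le)
  · rintro ⟨a1, a2, a3⟩
    refine ⟨a1, ?_⟩
    apply le_antisymm
    · by_contra hcon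
      push Not at hcon
      have h1 : cl D H i ≤ i := cl_le i
      have h2 : cl D H i < g := by
        rcases lt_or_ge (cl D H i) g with h | h
        · exact h
        · have h3 : cl D H i = g ∧ i = g := by omega
          have := hg2 i a1
          rw [h3.2, sub_self, abs_zero] at this
          omega
      have h3 : Far D H (cl D H i : ℤ) := cl_far (by
        have : dia D H ≤ i ∨ i < dia D H := le_or_gt _ _
        rcases this with h | h
        · exact h
        · exfalso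
          -- `cl D H d` is a far point below `i`, hence `i` is beyond the first far point
          obtain ⟨g', h1', h2', h3'⟩ := far_exists (D := D) (H := H) 0
          have := hmin (cl D H i) hcon h2
          have h5 := Nat.findGreatest_spec (P := fun g => Far D H ((g : ℕ) : ℤ))
            (show cl D H d ≤ i by omega) hp
          exact this h5)
      exact hmin _ hcon h2 h3
    · exact le_cl (by omega) hp

/-- admissible window ends -/
def Adm (D : Finset ℕ) (H : ℕ) (x : ℤ) : Prop := ∀ i ∈ D, ∀ j ∈ D, (H : ℤ) < |x - (i + j)|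

theorem adm_far {x : ℤ} (hx : Adm D H x) {i : ℕ} (hi : i ∈ D) : Far D H (x - i) := by
  intro j hj
  have := hx i hi j hj
  rwa [show x - i - (j : ℤ) = x - (i + j) by ring]

theorem adm_iff {x : ℤ} (hx : Adm D H x) {i j i' j' : ℕ} (hi : i ∈ D) (hj : j ∈ D)
    (hi' : i' ∈ D) (hj' : j' ∈ D) (h : cl D H i = cl D H i') (h' : cl D H j = cl D H j') :
    (i : ℤ) + j ≤ x ↔ (i' : ℤ) + j' ≤ x := by
  have h1 : (i : ℤ) ≤ x - j ↔ (i' : ℤ) ≤ x - j := far_le_iff (adm_far hx hj) hi hi' h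
  have h2 : (j : ℤ) ≤ x - i' ↔ (j' : ℤ) ≤ x - i' := far_le_iff (adm_far hx hi') hj hj' h'
  constructor
  · intro h3
    have := h1.1 (by linarith)
    have := h2.1 (by linarith)
    linarith
  · intro h3
    have := h2.2 (by linarith)
    have := h1.2 (by linarith)
    linarith

/-- the window relation -/
theorem window [IsDomain F] (h2 : (2 : F) ≠ 0) {x y : ℤ} (hx : Adm D H x) (hy : Adm D H y)
    (hsum : ∑ i ∈ D, c i * (cum D c (y - i) - cum D c (x - i)) = 0) (_hxy : x ≤ y)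
    {a t : ℕ} (ha : a ∈ D) (ht : t ∈ D) (hat : cl D H a ≠ cl D H t)
    (hwa : wt D H c (cl D H a) ≠ 0) (hwt : wt D H c (cl D H t) ≠ 0)
    (hax : x < (a : ℤ) + t) (hay : (a : ℤ) + t ≤ y) :
    ∃ i ∈ D, ∃ j ∈ D, wt D H c (cl D H i) ≠ 0 ∧ wt D H c (cl D H j) ≠ 0 ∧
      x < (i : ℤ) + j ∧ (i : ℤ) + j ≤ y ∧ j ≤ i ∧
      ¬ (cl D H i = cl D H a ∧ cl D H j = cl D H t) ∧
      ¬ (cl D H i = cl D H t ∧ cl D H j = cl D H a) := by
  classical
  by_contra hcon
  push Not at hcon
  -- without the ordering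
  have hcon2 : ∀ i ∈ D, ∀ j ∈ D, wt D H c (cl D H i) ≠ 0 → wt D H c (cl D H j) ≠ 0 →
      x < (i : ℤ) + j → (i : ℤ) + j ≤ y →
      (cl D H i = cl D H a ∧ cl D H j = cl D H t) ∨
      (cl D H i = cl D H t ∧ cl D H j = cl D H a) := by
    intro i hi j hj h1 h3 h4 h5
    rcases le_total j i with h6 | h6
    · by_cases h7 : cl D H i = cl D H a ∧ cl D H j = cl D H t
      · exact Or.inl h7
      · exact Or.inr (hcon i hi j hj h1 h3 h4 h5 h6 (fun h8 h9 => h7 ⟨h8, h9⟩))
    · by_cases h7 : cl D H j = cl D H a ∧ cl D H i = cl D H t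
      · exact Or.inr ⟨h7.2, h7.1⟩
      · have := hcon j hj i hi h3 h1 (by linarith) (by linarith) h6 (fun h8 h9 => h7 ⟨h8, h9⟩)
        exact Or.inl ⟨this.2, this.1⟩
  -- rewrite as a double sum
  have e1 : ∀ i ∈ D, c i * (cum D c (y - i) - cum D c (x - i)) =
      ∑ j ∈ D.filter (fun j : ℕ => x < (i : ℤ) + j ∧ (i : ℤ) + j ≤ y), c i * c j := by
    intro i _
    rw [cum_sub (by linarith), Finset.mul_sum]
    apply Finset.sum_congr _ (fun _ _ => rfl)
    ext j
    simp only [Finset.mem_filter]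
    constructor
    · rintro ⟨b1, b2, b3⟩; exact ⟨b1, by linarith, by linarith⟩
    · rintro ⟨b1, b2, b3⟩; exact ⟨b1, by linarith, by linarith⟩
  rw [Finset.sum_congr rfl e1] at hsum
  set Win : ℕ × ℕ → Prop := fun p => x < (p.1 : ℤ) + p.2 ∧ (p.1 : ℤ) + p.2 ≤ y with hWin
  have e2 : ∑ i ∈ D, ∑ j ∈ D.filter (fun j : ℕ => x < (i : ℤ) + j ∧ (i : ℤ) + j ≤ y), c i * c j =
      ∑ p ∈ (D ×ˢ D).filter Win, c p.1 * c p.2 := by
    rw [Finset.sum_filter, Finset.sum_product]
    apply Finset.sum_congr rfl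
    intro i _
    rw [Finset.sum_filter]
  rw [e2] at hsum
  set L : ℕ × ℕ → ℕ × ℕ := fun p => (cl D H p.1, cl D H p.2) with hL
  rw [← Finset.sum_fiberwise_of_maps_to (s := (D ×ˢ D).filter Win)
    (t := ((D ×ˢ D).filter Win).image L) (g := L)
    (fun i hi => Finset.mem_image_of_mem _ hi)] at hsum
  have e3 : ∀ p ∈ ((D ×ˢ D).filter Win).image L,
      (∑ r ∈ (D ×ˢ D).filter Win with L r = p, c r.1 * c r.2) =
        wt D H c p.1 * wt D H c p.2 := by
    intro p hp
    rw [Finset.mem_image] at hp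
    obtain ⟨⟨i0, j0⟩, hij, rfl⟩ := hp
    rw [Finset.mem_filter, Finset.mem_product] at hij
    obtain ⟨⟨hi0, hj0⟩, hw1, hw2⟩ := hij
    simp only at hi0 hj0 hw1 hw2
    unfold wt
    rw [Finset.sum_mul_sum, ← Finset.sum_product']
    apply Finset.sum_congr _ (fun _ _ => rfl)
    ext ⟨i, j⟩
    simp only [Finset.mem_filter, Finset.mem_product, hL, hWin, Prod.mk.injEq]
    constructor
    · rintro ⟨⟨⟨b1, b2⟩, _⟩, b5, b6⟩
      exact ⟨⟨b1, b5⟩, ⟨b2, b6⟩⟩
    · rintro ⟨⟨b1, b5⟩, ⟨b2, b6⟩⟩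
      refine ⟨⟨⟨b1, b2⟩, ?_, ?_⟩, b5, b6⟩
      · by_contra hc2
        push Not at hc2
        have := (adm_iff hx b1 b2 hi0 hj0 b5 b6).1 hc2
        linarith
      · exact (adm_iff hy b1 b2 hi0 hj0 b5 b6).2 hw2
  rw [Finset.sum_congr rfl e3] at hsum
  set A := cl D H a
  set T := cl D H t
  have hAT : (A, T) ≠ (T, A) := fun h => hat (Prod.ext_iff.1 h).1
  have hmem1 : (A, T) ∈ ((D ×ˢ D).filter Win).image L := by
    rw [Finset.mem_image]
    exact ⟨(a, t), Finset.mem_filter.2 ⟨Finset.mem_product.2 ⟨ha, ht⟩, hax, hay⟩, rfl⟩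
  have hmem2 : (T, A) ∈ ((D ×ˢ D).filter Win).image L := by
    rw [Finset.mem_image]
    exact ⟨(t, a), Finset.mem_filter.2 ⟨Finset.mem_product.2 ⟨ht, ha⟩, by
      simp only; linarith, by simp only; linarith⟩, rfl⟩
  have e4 : ∑ p ∈ ((D ×ˢ D).filter Win).image L, wt D H c p.1 * wt D H c p.2 =
      ∑ p ∈ ({(A, T), (T, A)} : Finset (ℕ × ℕ)), wt D H c p.1 * wt D H c p.2 := by
    symm
    apply Finset.sum_subset
    · intro p hp
      rw [Finset.mem_insert, Finset.mem_singleton] at hp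
      rcases hp with rfl | rfl
      · exact hmem1
      · exact hmem2
    · intro p hp hnot
      rw [Finset.mem_image] at hp
      obtain ⟨⟨i, j⟩, hij, rfl⟩ := hp
      rw [Finset.mem_filter, Finset.mem_product] at hij
      obtain ⟨⟨hi, hj⟩, hw1, hw2⟩ := hij
      by_contra hne
      have h1 : wt D H c (cl D H i) ≠ 0 := fun h => hne (by simp only [hL]; rw [h, zero_mul])
      have h3 : wt D H c (cl D H j) ≠ 0 := fun h => hne (by simp only [hL]; rw [h, mul_zero])
      apply hnot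
      rw [Finset.mem_insert, Finset.mem_singleton]
      rcases hcon2 i hi j hj h1 h3 hw1 hw2 with h | h
      · left; exact Prod.ext h.1 h.2
      · right; exact Prod.ext h.1 h.2
  rw [e4, Finset.sum_pair hAT] at hsum
  simp only at hsum
  have : (2 : F) * (wt D H c A * wt D H c T) = 0 := by linear_combination hsum
  rcases mul_eq_zero.1 this with h | h
  · exact h2 h
  · rcases mul_eq_zero.1 h with h | h
    · exact hwa h
    · exact hwt h

/-- admissible integers exist in every interval of length `|D|^2 (2H+1) + |E|` -/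
theorem adm_exists (E : Finset ℕ) (a : ℕ) : ∃ x : ℕ, a ≤ x ∧
    x ≤ a + (D.card * D.card * (2 * H + 1) + E.card) ∧ Adm D H (x : ℤ) ∧ x ∉ E := by
  classical
  by_contra hcon
  push Not at hcon
  set L := D.card * D.card * (2 * H + 1) + E.card with hL
  have hsub : Finset.Icc a (a + L) ⊆
      (D ×ˢ D).biUnion (fun p => Finset.Icc (p.1 + p.2 - H) (p.1 + p.2 + H)) ∪ E := by
    intro g hg
    rw [Finset.mem_Icc] at hg
    rw [Finset.mem_union]
    by_cases hgE : g ∈ E
    · exact Or.inr hgE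
    left
    have h1 : ¬ Adm D H (g : ℤ) := fun h => hgE (hcon g hg.1 hg.2 h)
    unfold Adm at h1
    push Not at h1
    obtain ⟨i, hi, j, hj, h3⟩ := h1
    rw [Finset.mem_biUnion]
    refine ⟨(i, j), Finset.mem_product.2 ⟨hi, hj⟩, ?_⟩
    rw [Finset.mem_Icc]
    rw [abs_le] at h3
    simp only
    omega
  have h1 := (Finset.card_le_card hsub).trans (Finset.card_union_le _ _)
  have h2 : ((D ×ˢ D).biUnion (fun p => Finset.Icc (p.1 + p.2 - H) (p.1 + p.2 + H))).card ≤
      D.card * D.card * (2 * H + 1) := by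
    refine Finset.card_biUnion_le.trans ?_
    rw [← Finset.card_product, ← smul_eq_mul, ← Finset.sum_const]
    apply Finset.sum_le_sum
    intro d _
    rw [Nat.card_Icc]
    omega
  rw [Nat.card_Icc] at h1
  omega

end H393R2.DE
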