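import Mathlib

/-! A finite set of `w` integers realises at most `w` pairwise lacunary distances. -/

set_option autoImplicit false

namespace H393R2.DE

open Finset

/-- pairwise lacunary positive integers: the sum is at most `3/2` of the maximum -/
theorem lac_sum {ι : Type*} [DecidableEq ι] (d : ι → ℤ) : ∀ (n : ℕ) (I : Finset ι), I.card = n →
    (∀ k ∈ I, 0 < d k) →
    (∀ k ∈ I, ∀ l ∈ I, k ≠ l → 3 * d k ≤ d l ∨ 3 * d l ≤ d k) →
    ∀ M : ℤ, 0 ≤ M → (∀ k ∈ I, d k ≤ M) → 2 * ∑ k ∈ I, d k ≤ 3 * M := by
  intro n
  induction n with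
  | zero =>
    intro I hI _ _ M hM _
    rw [Finset.card_eq_zero.1 hI]; simp; linarith
  | succ n ih =>
    intro I hI hpos hlac M hM hle
    have hne : I.Nonempty := by rw [← Finset.card_pos]; omega
    obtain ⟨k, hk, hmax⟩ := Finset.exists_max_image I d hne
    have hI' : (I.erase k).card = n := by rw [Finset.card_erase_of_mem hk]; omega
    have h1 := ih (I.erase k) hI' (fun l hl => hpos l (Finset.mem_of_mem_erase hl))
      (fun l hl l' hl' hne => hlac l (Finset.mem_of_mem_erase hl) l' (Finset.mem_of_mem_erase hl') hne)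
      (d k / 3) (by have := hpos k hk; omega) (by
        intro l hl
        have hlk : l ≠ k := Finset.ne_of_mem_erase hl
        have hlI := Finset.mem_of_mem_erase hl
        have hpl := hpos l hlI
        have hml := hmax l hlI
        rcases hlac l hlI k hk hlk with h | h
        · omega
        · have := hpos k hk
          omega)
    have h2 : ∑ l ∈ I, d l = d k + ∑ l ∈ I.erase k, d l := (Finset.add_sum_erase I d hk).symm
    have h3 := hle k hk
    omega

/-- the forest lemma -/
theorem lac_card {ι : Type*} [DecidableEq ι] (W : Finset ℤ) (K : Finset ι) (x y : ι → ℤ)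
    (hx : ∀ k ∈ K, x k ∈ W) (hy : ∀ k ∈ K, y k ∈ W) (hpos : ∀ k ∈ K, x k < y k)
    (hlac : ∀ k ∈ K, ∀ l ∈ K, k ≠ l →
      3 * (y k - x k) ≤ y l - x l ∨ 3 * (y l - x l) ≤ y k - x k) :
    K.card ≤ W.card := by
  classical
  by_contra hcon
  push Not at hcon
  let v : K → (W → ZMod 2) := fun k w =>
    (if x k = w then 1 else 0) + (if y k = w then 1 else 0)
  have hnot : ¬ LinearIndependent (ZMod 2) v := by
    intro h
    have := h.fintype_card_le_finrank
    simp at this
    omega
  rw [Fintype.not_linearIndependent_iff] at hnot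
  obtain ⟨g, hg, k0, hk0⟩ := hnot
  -- the index set of nonzero coefficients
  let I : Finset K := Finset.univ.filter (fun k => g k ≠ 0)
  have hI0 : k0 ∈ I := Finset.mem_filter.2 ⟨Finset.mem_univ _, hk0⟩
  have hg1 : ∀ k ∈ I, g k = 1 := by
    intro k hk
    have : g k ≠ 0 := (Finset.mem_filter.1 hk).2
    have h2 : ∀ a : ZMod 2, a ≠ 0 → a = 1 := by decide
    exact h2 _ this
  have hsum : ∀ w : W, ∑ k ∈ I, v k w = 0 := by
    intro w
    have h1 := congrFun hg w
    rw [Finset.sum_apply] at h1
    simp only [Pi.smul_apply, smul_eq_mul, Pi.zero_apply] at h1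
    rw [← h1]
    rw [← Finset.sum_filter_add_sum_filter_not Finset.univ (fun k => g k ≠ 0)
      (fun k => g k * v k w)]
    have h2 : ∑ k ∈ Finset.univ.filter (fun k => ¬ g k ≠ 0), g k * v k w = 0 := by
      apply Finset.sum_eq_zero
      intro k hk
      have : g k = 0 := by
        have := (Finset.mem_filter.1 hk).2
        push Not at this
        exact this
      rw [this, zero_mul]
    rw [h2, add_zero]
    apply Finset.sum_congr rfl
    intro k hk
    rw [hg1 k hk, one_mul]
  -- crossing parity
  have hpar : ∀ c : ℤ, ((I.filter (fun k : K => x k ≤ c ∧ c < y k)).card : ZMod 2) = 0 := by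
    intro c
    have h1 : ∑ w : W, (if (w : ℤ) ≤ c then ∑ k ∈ I, v k w else 0) = 0 := by
      apply Finset.sum_eq_zero
      intro w _
      rw [hsum w]; simp
    have h2 : ∑ w : W, (if (w : ℤ) ≤ c then ∑ k ∈ I, v k w else 0) =
        ∑ k ∈ I, ∑ w : W, (if (w : ℤ) ≤ c then v k w else 0) := by
      rw [Finset.sum_comm]
      apply Finset.sum_congr rfl
      intro w _
      split_ifs
      · rfl
      · simp
    have h3 : ∀ k : K, ∑ w : W, (if (w : ℤ) ≤ c then v k w else 0) =
        (if x k ≤ c then 1 else 0) + (if y k ≤ c then 1 else 0) := by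
      intro k
      have e1 : ∀ w : W, (if (w : ℤ) ≤ c then v k w else 0) =
          (if (⟨x k, hx k k.2⟩ : W) = w then (if x k ≤ c then (1 : ZMod 2) else 0) else 0) +
          (if (⟨y k, hy k k.2⟩ : W) = w then (if y k ≤ c then (1 : ZMod 2) else 0) else 0) := by
        intro w
        simp only [v]
        have a1 : ((⟨x k, hx k k.2⟩ : W) = w) ↔ x k = w := by
          rw [Subtype.ext_iff]
        have a2 : ((⟨y k, hy k k.2⟩ : W) = w) ↔ y k = w := by
          rw [Subtype.ext_iff]
        rw [if_congr a1 rfl rfl, if_congr a2 rfl rfl]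
        by_cases b1 : x k = w <;> by_cases b2 : y k = w <;> by_cases b3 : (w : ℤ) ≤ c <;>
          simp [b1, b2, b3]
      rw [Finset.sum_congr rfl (fun w _ => e1 w), Finset.sum_add_distrib,
        Finset.sum_ite_eq, Finset.sum_ite_eq]
      simp
    have h4 : ∀ k : K, (if x k ≤ c then (1 : ZMod 2) else 0) + (if y k ≤ c then 1 else 0) =
        if x k ≤ c ∧ c < y k then 1 else 0 := by
      intro k
      have := hpos k k.2
      have two : (1 : ZMod 2) + 1 = 0 := by decide
      by_cases b1 : x k ≤ c <;> by_cases b2 : y k ≤ c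
      · have : ¬ (c < y k) := not_lt.2 b2
        simp [b1, b2, this, two]
      · have : c < y k := not_le.1 b2
        simp [b1, b2, this]
      · omega
      · simp [b1, b2]
    rw [h2] at h1
    rw [Finset.card_filter]
    push_cast
    refine Eq.trans ?_ h1
    apply Finset.sum_congr rfl
    intro k _
    rw [h3 k, h4 k]
  -- the longest edge
  obtain ⟨m, hm, hmax⟩ := Finset.exists_max_image I (fun k : K => y k - x k) ⟨k0, hI0⟩
  have hcov : Finset.Ico (x m) (y m) ⊆
      (I.erase m).biUnion (fun k => Finset.Ico (x k) (y k)) := by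
    intro c hc
    rw [Finset.mem_Ico] at hc
    rw [Finset.mem_biUnion]
    by_contra hno
    push Not at hno
    have h1 : I.filter (fun k : K => x k ≤ c ∧ c < y k) = {m} := by
      ext k
      rw [Finset.mem_filter, Finset.mem_singleton]
      constructor
      · rintro ⟨h1, h2⟩
        by_contra hkm
        exact hno k (Finset.mem_erase.2 ⟨hkm, h1⟩) (Finset.mem_Ico.2 h2)
      · rintro rfl
        exact ⟨hm, hc⟩
    have h2 := hpar c
    rw [h1, Finset.card_singleton] at h2
    exact absurd h2 (by decide)
  have hcard := (Finset.card_le_card hcov).trans Finset.card_biUnion_le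
  rw [Int.card_Ico] at hcard
  have hposm := hpos m m.2
  have hle2 : (y m - x m) ≤ ∑ k ∈ I.erase m, (y k - x k) := by
    have h1 : (((y m - x m).toNat : ℕ) : ℤ) = y m - x m := Int.toNat_of_nonneg (by linarith)
    rw [← h1]
    calc (((y m - x m).toNat : ℕ) : ℤ) ≤ ((∑ k ∈ I.erase m, (Finset.Ico (x k) (y k)).card : ℕ) : ℤ) := by
          exact_mod_cast hcard
      _ = ∑ k ∈ I.erase m, (y k - x k) := by
          push_cast
          apply Finset.sum_congr rfl
          intro k _
          rw [Int.card_Ico, Int.toNat_of_nonneg]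
          have := hpos k k.2
          linarith
  have hls := lac_sum (fun k : K => y k - x k) _ (I.erase m) rfl
    (fun k _ => by have := hpos k k.2; linarith)
    (fun k _ l _ hkl => hlac k k.2 l l.2 (fun h => hkl (Subtype.ext h)))
    ((y m - x m) / 3) (by omega) (by
      intro l hl
      have hlm : l ≠ m := Finset.ne_of_mem_erase hl
      have hml := hmax l (Finset.mem_of_mem_erase hl)
      have hpl := hpos l l.2
      rcases hlac l l.2 m m.2 (fun h => hlm (Subtype.ext h)) with h | h
      · omega
      · omega)
  omega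

/-- version with scales: distances `d_k` in `[α_k, β_k]` with strongly lacunary `α, β` along
residue classes mod `P` -/
theorem lac_levels (W : Finset ℤ) (K : Finset ℕ) (P : ℕ) (hP : 1 ≤ P) (x y : ℕ → ℤ)
    (hx : ∀ k ∈ K, x k ∈ W) (hy : ∀ k ∈ K, y k ∈ W) (hpos : ∀ k ∈ K, x k < y k)
    (hlac : ∀ k ∈ K, ∀ l ∈ K, k + P ≤ l →
      3 * (y k - x k) ≤ y l - x l ∨ 3 * (y l - x l) ≤ y k - x k) :
    K.card ≤ P * W.card := by
  classical
  have h1 : K.card = ∑ r ∈ Finset.range P, (K.filter (fun k => k % P = r)).card := by
    rw [← Finset.card_eq_sum_card_fiberwise]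
    intro k _
    rw [Finset.mem_coe, Finset.mem_range]
    exact Nat.mod_lt _ hP
  rw [h1]
  calc ∑ r ∈ Finset.range P, (K.filter (fun k => k % P = r)).card
      ≤ ∑ r ∈ Finset.range P, W.card := by
        apply Finset.sum_le_sum
        intro r _
        apply lac_card W _ x y
        · intro k hk; exact hx k (Finset.mem_filter.1 hk).1
        · intro k hk; exact hy k (Finset.mem_filter.1 hk).1
        · intro k hk; exact hpos k (Finset.mem_filter.1 hk).1
        · intro k hk l hl hkl
          obtain ⟨hk1, hk2⟩ := Finset.mem_filter.1 hk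
          obtain ⟨hl1, hl2⟩ := Finset.mem_filter.1 hl
          have key : ∀ a b : ℕ, a % P = b % P → a < b → a + P ≤ b := by
            intro a b hab hlt
            have h2 : a ≡ b [MOD P] := hab
            have h3 : P ∣ b - a := (Nat.modEq_iff_dvd' hlt.le).1 h2
            have := Nat.le_of_dvd (by omega) h3
            omega
          rcases Nat.lt_or_ge k l with h | h
          · exact hlac k hk1 l hl1 (key k l (hk2.trans hl2.symm) h)
          · have := key l k (hl2.trans hk2.symm) (by omega)
            rcases hlac l hl1 k hk1 this with h' | h'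
            · exact Or.inr h'
            · exact Or.inl h'
    _ = P * W.card := by rw [Finset.sum_const, Finset.card_range, smul_eq_mul]

end H393R2.DE
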